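import Mathlib

namespace Pool.Agent.H.MP_1096cc_an

open Complex Metric Filter Topology InnerProductSpace Set

variable {n : ℕ}

lemma harm_comp (g : ℂ → ℂ) (hg : Differentiable ℂ g) (ζ : EuclideanSpace ℝ (Fin n) →L[ℝ] ℂ)
    (hζ : ∑ i, ζ (EuclideanSpace.single i 1) ^ 2 = 0) (x : EuclideanSpace ℝ (Fin n)) :
    HarmonicAt (g ∘ ζ) x := by
  have h2 : ContDiff ℂ 2 g := hg.contDiff
  have h3 : ContDiff ℝ 2 g := h2.restrict_scalars ℝ
  refine ⟨(h3.comp ζ.contDiff).contDiffAt, Eventually.of_forall fun y => ?_⟩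
  rw [laplacian_eq_iteratedFDeriv_orthonormalBasis _ (EuclideanSpace.basisFun (Fin n) ℝ)]
  simp only [ζ.iteratedFDeriv_comp_right h3 y le_rfl,
    ContinuousMultilinearMap.compContinuousLinearMap_apply,
    ← h2.contDiffAt.restrictScalars_iteratedFDeriv (𝕜 := ℝ), Function.comp_apply,
    ContinuousMultilinearMap.coe_restrictScalars, iteratedFDeriv_apply_eq_iteratedDeriv_mul_prod,
    Fin.prod_univ_two, Matrix.cons_val_zero, Matrix.cons_val_one, EuclideanSpace.basisFun_apply,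
    ← sq, ← Finset.sum_smul, hζ, zero_smul, Pi.zero_apply]

noncomputable def zeta (φ : ℝ) : EuclideanSpace ℝ (Fin (n + 3)) →L[ℝ] ℂ :=
  ofRealCLM ∘L EuclideanSpace.proj 0 +
    (I * Real.cos φ) • (ofRealCLM ∘L EuclideanSpace.proj 1) +
    (I * Real.sin φ) • (ofRealCLM ∘L EuclideanSpace.proj 2)

lemma zeta_apply (φ : ℝ) (x : EuclideanSpace ℝ (Fin (n + 3))) :
    zeta φ x = x 0 + (x 1 * Real.cos φ + x 2 * Real.sin φ : ℝ) * I := by
  simp [zeta]
  ring

lemma zeta_sq (φ : ℝ) : ∑ i : Fin (n + 3), zeta φ (EuclideanSpace.single i 1) ^ 2 = 0 := by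
  have e1 : ∀ i : Fin n, (1 : Fin (n + 3)) ≠ i.succ.succ.succ := fun i h => by
    have := congrArg Fin.val h; simp at this
  have e2 : ∀ i : Fin n, (2 : Fin (n + 3)) ≠ i.succ.succ.succ := fun i h => by
    have := congrArg Fin.val h; rw [Fin.val_two] at this; simp at this
  have e0 : ∀ i : Fin n, (0 : Fin (n + 3)) ≠ i.succ.succ.succ := fun i => (Fin.succ_ne_zero _).symm
  have a1 : (1 : Fin (n + 3)) ≠ 2 := fun h => by
    have := congrArg Fin.val h; rw [Fin.val_two] at this; simp at this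
  have a2 : (0 : Fin (n + 3)) ≠ 2 := fun h => by
    have := congrArg Fin.val h; rw [Fin.val_two] at this; simp at this
  simp only [Fin.sum_univ_succ, zeta_apply, Fin.succ_zero_eq_one, Fin.succ_one_eq_two]
  simp [e0, e1, e2, a1, a2, a1.symm, a2.symm, mul_pow]
  linear_combination (-1 : ℂ) * Complex.cos_sq_add_sin_sq φ

lemma coord_sq (x : EuclideanSpace ℝ (Fin (n + 3))) : x 0 ^ 2 + x 1 ^ 2 + x 2 ^ 2 ≤ ‖x‖ ^ 2 := by
  rw [EuclideanSpace.real_norm_sq_eq]
  simp only [Fin.sum_univ_succ, Fin.succ_zero_eq_one, Fin.succ_one_eq_two]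
  have : 0 ≤ ∑ i : Fin n, x i.succ.succ.succ ^ 2 := by positivity
  linarith

lemma zeta_norm (φ : ℝ) (x : EuclideanSpace ℝ (Fin (n + 3))) :
    ‖zeta φ x‖ ^ 2 + (x 1 * Real.sin φ - x 2 * Real.cos φ) ^ 2 = x 0 ^ 2 + x 1 ^ 2 + x 2 ^ 2 := by
  rw [zeta_apply, Complex.sq_norm, normSq_add_mul_I]
  linear_combination (x 1 ^ 2 + x 2 ^ 2) * Real.cos_sq_add_sin_sq φ

lemma zeta_le (φ : ℝ) {x : EuclideanSpace ℝ (Fin (n + 3))} (hx : ‖x‖ ≤ 1) : ‖zeta φ x‖ ≤ 1 := by
  have := zeta_norm φ x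
  have := coord_sq x
  refine le_of_sq_le_sq ?_ zero_le_one
  nlinarith [sq_nonneg (x 1 * Real.sin φ - x 2 * Real.cos φ), norm_nonneg x]

lemma two_dirs {φ ψ : ℝ} (h : Real.sin (φ - ψ) ≠ 0) {x : EuclideanSpace ℝ (Fin (n + 3))}
    (hx : ‖x‖ ≤ 1) (h1 : ‖zeta φ x‖ = 1) (h2 : ‖zeta ψ x‖ = 1) : zeta φ x ^ 2 = 1 := by
  have c := coord_sq x
  have c' : ‖x‖ ^ 2 ≤ 1 := by nlinarith [norm_nonneg x]
  have a := zeta_norm φ x
  have b := zeta_norm ψ x
  rw [h1] at a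
  rw [h2] at b
  have a' : x 1 * Real.sin φ - x 2 * Real.cos φ = 0 := by
    refine pow_eq_zero_iff (two_ne_zero) |>.1 (le_antisymm (by linarith) (sq_nonneg _))
  have b' : x 1 * Real.sin ψ - x 2 * Real.cos ψ = 0 := by
    refine pow_eq_zero_iff (two_ne_zero) |>.1 (le_antisymm (by linarith) (sq_nonneg _))
  rw [Real.sin_sub] at h
  have e1 : x 1 = 0 := (mul_eq_zero.1 (by linear_combination Real.cos ψ * a' - Real.cos φ * b' :
    x 1 * (Real.sin φ * Real.cos ψ - Real.cos φ * Real.sin ψ) = 0)).resolve_right h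
  have e2 : x 2 = 0 := (mul_eq_zero.1 (by linear_combination Real.sin ψ * a' - Real.sin φ * b' :
    x 2 * (Real.sin φ * Real.cos ψ - Real.cos φ * Real.sin ψ) = 0)).resolve_right h
  rw [zeta_apply, e1, e2]
  rw [e1, e2] at a
  have : x 0 ^ 2 = 1 := by linarith
  rw [zero_mul, zero_mul, add_zero, ofReal_zero, zero_mul, add_zero, ← ofReal_pow, this,
    ofReal_one]

noncomputable def ang (m : ℕ) : ℝ := 1 / ((m : ℝ) + 1)

lemma ang_sin {m k : ℕ} (h : m ≠ k) : Real.sin (ang m - ang k) ≠ 0 := by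
  have p : ∀ j : ℕ, 0 < ang j ∧ ang j ≤ 1 := fun j =>
    ⟨by unfold ang; positivity, by
      unfold ang; rw [div_le_one (by positivity)]; linarith [j.cast_nonneg (α := ℝ)]⟩
  have := Real.pi_gt_three
  rw [Ne, Real.sin_eq_zero_iff_of_lt_of_lt (by linarith [p m, p k]) (by linarith [p m, p k]),
    sub_eq_zero]
  intro e
  simp only [ang, one_div, inv_inj, add_left_inj, Nat.cast_inj] at e
  exact h e

lemma small (M : ℕ) : ∃ N : ℕ, ∀ x : EuclideanSpace ℝ (Fin (n + 3)), ‖x‖ ≤ 1 →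
    ∑ m ∈ Finset.range M, ‖zeta (ang m) x‖ ^ N * ‖zeta (ang m) x ^ 2 - 1‖ < 3 := by
  let F : ℕ → EuclideanSpace ℝ (Fin (n + 3)) → ℝ := fun N x =>
    ∑ m ∈ Finset.range M, ‖zeta (ang m) x‖ ^ N * ‖zeta (ang m) x ^ 2 - 1‖
  have hF : ∀ N, Continuous (F N) := fun N => by fun_prop
  let U : ℕ → Set (EuclideanSpace ℝ (Fin (n + 3))) := fun N => {x | F N x < 3}
  have hcov : closedBall 0 1 ⊆ ⋃ N, U N := by
    intro x hx
    have hx1 : ‖x‖ ≤ 1 := by simpa using hx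
    let L : ℕ → ℝ := fun m => if ‖zeta (ang m) x‖ = 1 then ‖zeta (ang m) x ^ 2 - 1‖ else 0
    have ht : Tendsto (fun N => F N x) atTop (𝓝 (∑ m ∈ Finset.range M, L m)) := by
      refine tendsto_finsetSum _ fun m _ => ?_
      by_cases h : ‖zeta (ang m) x‖ = 1
      · simp [L, h]
      · simp only [L, if_neg h]
        simpa using (tendsto_pow_atTop_nhds_zero_of_lt_one (norm_nonneg _)
          (lt_of_le_of_ne (zeta_le _ hx1) h)).mul_const ‖zeta (ang m) x ^ 2 - 1‖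
    have hL : ∑ m ∈ Finset.range M, L m < 3 := by
      by_cases h : ∃ k, ‖zeta (ang k) x‖ = 1
      · obtain ⟨k, hk⟩ := h
        have h0 : ∀ m, m ≠ k → L m = 0 := fun m hm => by
          simp only [L]
          split_ifs with h1
          · rw [two_dirs (ang_sin hm) hx1 h1 hk, sub_self, norm_zero]
          · rfl
        have h2 : L k ≤ 2 := by
          simp only [L, if_pos hk]
          refine (norm_sub_le _ _).trans ?_
          rw [norm_pow, hk, norm_one]; norm_num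
        by_cases hkM : k ∈ Finset.range M
        · rw [Finset.sum_eq_single_of_mem k hkM fun m _ hm => h0 m hm]
          linarith
        · rw [Finset.sum_eq_zero fun m hm => h0 m fun e => hkM (e ▸ hm)]
          norm_num
      · push Not at h
        rw [Finset.sum_eq_zero fun m _ => if_neg (h m)]
        norm_num
    obtain ⟨N, hN⟩ := (ht.eventually (gt_mem_nhds hL)).exists
    exact mem_iUnion.2 ⟨N, hN⟩
  obtain ⟨s, hs⟩ := (isCompact_closedBall _ _).elim_finite_subcover U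
    (fun N => isOpen_lt (hF N) continuous_const) hcov
  refine ⟨s.sup id, fun x hx => ?_⟩
  obtain ⟨N, hN, hxN⟩ := mem_iUnion₂.1 (hs (by simpa using hx : x ∈ closedBall 0 1))
  refine lt_of_le_of_lt (Finset.sum_le_sum fun m _ => ?_) hxN
  exact mul_le_mul_of_nonneg_right
    (pow_le_pow_of_le_one (norm_nonneg _) (zeta_le _ hx) (Finset.le_sup (f := id) hN)) (norm_nonneg _)

lemma example3 {ρ : ℝ} (hρ : 0 < ρ) (hρ1 : ρ < 1) (M : ℕ) :
    ∃ (N : ℕ) (u : EuclideanSpace ℝ (Fin (n + 3)) → ℂ), (∀ x, HarmonicAt u x) ∧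
      (∀ x, ‖x‖ ≤ 1 → ‖u x‖ ≤ 6) ∧ (∀ x, ‖x‖ ≤ ρ → ‖u x‖ ≤ 6 * ρ ^ N) ∧
      ∀ t : ℝ, u (EuclideanSpace.single 0 t) = M * (t ^ N * ((t ^ 2 - 1) * (t ^ 2 - ρ ^ 2)) : ℝ) := by
  obtain ⟨N, hN⟩ := small (n := n) M
  let g : ℂ → ℂ := fun z => z ^ N * ((z ^ 2 - 1) * (z ^ 2 - ρ ^ 2))
  have hg : Differentiable ℂ g := by fun_prop
  have hb : ∀ z : ℂ, ‖z‖ ≤ 1 → ∀ s : ℝ, |s| ≤ 1 → ‖z ^ 2 - s ^ 2‖ ≤ 2 := fun z hz s hs => by
    refine (norm_sub_le _ _).trans ?_
    rw [norm_pow, norm_pow, Complex.norm_real, Real.norm_eq_abs]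
    nlinarith [norm_nonneg z, abs_nonneg s]
  refine ⟨N, ∑ m ∈ Finset.range M, g ∘ zeta (ang m), fun x => ?_, fun x hx => ?_, fun x hx => ?_,
    fun t => ?_⟩
  · exact Finset.sum_induction _ (fun f => HarmonicAt f x) (fun _ _ => HarmonicAt.add)
      (harmonicAt_const 0) fun m _ => harm_comp g hg _ (zeta_sq _) x
  · rw [Finset.sum_apply]
    refine (norm_sum_le _ _).trans ?_
    have := hN x hx
    calc _ ≤ ∑ m ∈ Finset.range M, 2 * (‖zeta (ang m) x‖ ^ N * ‖zeta (ang m) x ^ 2 - 1‖) := by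
          refine Finset.sum_le_sum fun m _ => ?_
          simp only [g, Function.comp_apply, norm_mul, norm_pow]
          rw [← mul_assoc, mul_comm]
          gcongr
          exact hb _ (zeta_le _ hx) ρ (by rw [abs_of_pos hρ]; exact hρ1.le)
      _ ≤ 6 := by rw [← Finset.mul_sum]; linarith
  · obtain ⟨y, rfl⟩ : ∃ y, x = ρ • y := ⟨ρ⁻¹ • x, by rw [smul_inv_smul₀ hρ.ne']⟩
    have hy : ‖y‖ ≤ 1 := by
      rw [norm_smul, Real.norm_of_nonneg hρ.le] at hx
      exact le_of_mul_le_mul_left (by simpa using hx) hρ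
    rw [Finset.sum_apply]
    refine (norm_sum_le _ _).trans ?_
    have := hN y hy
    calc _ ≤ ∑ m ∈ Finset.range M,
          2 * ρ ^ N * (‖zeta (ang m) y‖ ^ N * ‖zeta (ang m) y ^ 2 - 1‖) := by
          refine Finset.sum_le_sum fun m _ => ?_
          have h1 := hb _ (zeta_le (ang m) (hx.trans hρ1.le)) 1 (by simp)
          simp only [g, Function.comp_apply, map_smul, real_smul, ofReal_one, one_pow] at h1 ⊢
          rw [show (ρ * zeta (ang m) y) ^ 2 - ρ ^ 2 = ρ ^ 2 * (zeta (ang m) y ^ 2 - 1) by ring]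
          simp only [norm_mul, norm_pow, Complex.norm_real, Real.norm_of_nonneg hρ.le, mul_pow] at h1 ⊢
          have h2 : ρ ^ 2 ≤ 1 := pow_le_one₀ hρ.le hρ1.le
          calc _ ≤ ρ ^ N * ‖zeta (ang m) y‖ ^ N * (2 * (1 * ‖zeta (ang m) y ^ 2 - 1‖)) := by gcongr
            _ = _ := by ring
      _ ≤ 6 * ρ ^ N := by
          rw [← Finset.mul_sum]
          nlinarith [pow_pos hρ N]
  · have a2 : (2 : Fin (n + 3)) ≠ 0 := fun h => by
      have := congrArg Fin.val h; rw [Fin.val_two] at this; simp at this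
    simp [g, zeta_apply, a2]

end Pool.Agent.H.MP_1096cc_an
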