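import Mathlib

namespace Pool.Agent.H.MP_1096cc_an

open Complex Metric Real Filter Topology InnerProductSpace Set
open scoped Nat ComplexConjugate

lemma coeff0 (F : ℂ → ℂ) (hF : DifferentiableOn ℂ F (ball 0 1)) {s ε : ℝ} (hs : 0 < s) (hs1 : s < 1)
    (h : ∀ z : ℂ, ‖z‖ = s → |(F z).re| ≤ ε) (k : ℕ) :
    ‖(((k + 1)! : ℕ) : ℂ)⁻¹ * iteratedDeriv (k + 1) F 0‖ * s ^ (k + 1) ≤ 2 * ε := by
  have hc : DifferentiableOn ℂ F (closedBall 0 s) := hF.mono (closedBall_subset_ball hs1)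
  have hsp : ContinuousOn F (sphere 0 s) := hc.continuousOn.mono sphere_subset_closedBall
  have hne : ∀ z ∈ sphere (0 : ℂ) s, z ≠ 0 := fun z hz e => by
    rw [e] at hz; simp [hs.ne] at hz
  have h1 : circleAverage (fun z => F z / z ^ (k + 1)) 0 s =
      (((k + 1)! : ℕ) : ℂ)⁻¹ * iteratedDeriv (k + 1) F 0 := by
    rw [circleAverage_eq_circleIntegral hs.ne',
      circleIntegral.integral_congr (g := fun z => (1 / (z - 0) ^ (k + 1 + 1)) • F z) hs.le,
      hc.circleIntegral_one_div_sub_center_pow_smul hs]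
    · have := two_pi_I_ne_zero
      simp only [smul_eq_mul]
      field_simp
    · intro z hz
      have := hne z hz
      simp only [sub_zero, smul_eq_mul]
      field_simp
      ring
  have i2 : CircleIntegrable (fun z => F z * z ^ (k + 1) / (s : ℂ) ^ (2 * (k + 1))) 0 s :=
    ContinuousOn.circleIntegrable hs.le (by fun_prop)
  have h2 : circleAverage (fun z => conj (F z) / z ^ (k + 1)) 0 s = 0 := by
    have e1 := conjCLE.toContinuousLinearMap.circleAverage_comp_comm i2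
    have e2 : circleAverage (fun z => F z * z ^ (k + 1) / (s : ℂ) ^ (2 * (k + 1))) 0 s = _ :=
      DiffContOnCl.circleAverage (by
        rw [abs_of_pos hs]
        refine DifferentiableOn.diffContOnCl ?_
        rw [closure_ball _ hs.ne']
        fun_prop)
    rw [e2] at e1
    rw [circleAverage_congr_sphere (f₂ := conjCLE.toContinuousLinearMap ∘
      fun z => F z * z ^ (k + 1) / (s : ℂ) ^ (2 * (k + 1))), e1]
    · simp
    · intro z hz
      rw [abs_of_pos hs] at hz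
      have h0 := hne z hz
      have h3 : (s : ℂ) ^ 2 = conj z * z := by
        rw [Complex.conj_mul', show ‖z‖ = s by simpa using hz]
      have h4 : conj z ≠ 0 := by simpa using h0
      simp only [Function.comp_apply, ContinuousLinearEquiv.coe_coe, conjCLE_apply, map_div₀, map_mul,
        map_pow, conj_ofReal]
      rw [pow_mul, h3, mul_pow]
      field_simp
  have j1 : CircleIntegrable (fun z => F z / z ^ (k + 1)) 0 s :=
    ContinuousOn.circleIntegrable hs.le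
      (hsp.div (by fun_prop) fun z hz => pow_ne_zero _ (hne z hz))
  have j2 : CircleIntegrable (fun z => conj (F z) / z ^ (k + 1)) 0 s :=
    ContinuousOn.circleIntegrable hs.le
      ((continuous_conj.comp_continuousOn hsp).div (by fun_prop) fun z hz => pow_ne_zero _ (hne z hz))
  have j3 := circleAverage_fun_add j1 j2
  rw [h2, add_zero] at j3
  rw [← h1, ← j3, circleAverage_def,
    ← le_div_iff₀ (by positivity), norm_smul, Real.norm_of_nonneg (by positivity),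
    inv_mul_le_iff₀ two_pi_pos]
  refine (intervalIntegral.norm_integral_le_of_norm_le_const (C := 2 * ε / s ^ (k + 1))
    fun θ _ => ?_).trans (le_of_eq ?_)
  · have hn : ‖circleMap 0 s θ‖ = s := by simp [hs.le]
    rw [← add_div, Complex.add_conj, norm_div, norm_pow, hn, Complex.norm_real, Real.norm_eq_abs,
      abs_mul, abs_two]
    gcongr
    exact h _ hn
  · rw [sub_zero, abs_of_pos two_pi_pos, mul_comm]

lemma coeff (F : ℂ → ℂ) (hF : DifferentiableOn ℂ F (ball 0 1)) {R ε : ℝ} (hR : 0 < R) (hR1 : R ≤ 1)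
    (h : ∀ z : ℂ, ‖z‖ < R → |(F z).re| ≤ ε) (k : ℕ) :
    ‖(((k + 1)! : ℕ) : ℂ)⁻¹ * iteratedDeriv (k + 1) F 0‖ * R ^ (k + 1) ≤ 2 * ε := by
  have hc : Continuous fun s : ℝ =>
      ‖(((k + 1)! : ℕ) : ℂ)⁻¹ * iteratedDeriv (k + 1) F 0‖ * s ^ (k + 1) := by fun_prop
  refine le_of_tendsto ((hc.tendsto R).mono_left (nhdsWithin_le_nhds (s := Iio R))) ?_
  filter_upwards [Ioo_mem_nhdsLT hR] with s hs
  exact coeff0 F hF hs.1 (hs.2.trans_le hR1) (fun z hz => h z (hz ▸ hs.2)) k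

lemma real_bound {ρ β : ℝ} (hρ : 0 < ρ) (hρ1 : ρ < 1) (hβ : 0 < β) (hβ1 : β < 1) :
    ∃ K : ℝ, ∀ v : ℂ → ℝ, HarmonicOnNhd v (ball 0 1) → (∀ z, ‖z‖ < 1 → |v z| ≤ 1) →
      ∀ ε : ℝ, 0 < ε → ε ≤ 1 → (∀ z, ‖z‖ < ρ → |v z| ≤ ε) → ∀ z, ‖z‖ < ρ ^ β → |v z| ≤ K * ε ^ β := by
  obtain ⟨r, hr⟩ : ∃ r, r = ρ ^ β := ⟨_, rfl⟩
  have hr0 : 0 < r := by rw [hr]; positivity
  have hr1 : r < 1 := by rw [hr]; exact Real.rpow_lt_one hρ.le hρ1 hβ
  have hρr : ρ < r := by
    rw [hr]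
    simpa using Real.rpow_lt_rpow_of_exponent_gt hρ hρ1 hβ1
  have hq : 1 < r / ρ := (one_lt_div hρ).2 hρr
  refine ⟨2 * (r / ρ / (r / ρ - 1)) + 2 * (1 - r)⁻¹, fun v hv h1 ε hε hε1 h2 z hz => ?_⟩
  rw [← hr] at hz
  obtain ⟨F, hF, hFv⟩ := hv.exists_analyticOnNhd_ball_re_eq
  have hF' := hF.differentiableOn
  have hz1 : z ∈ ball (0 : ℂ) 1 := by simpa using hz.trans hr1
  have c1 := coeff F hF' one_pos le_rfl fun w hw => by
    have := h1 w hw
    rwa [← hFv (by simpa using hw)] at this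
  have c2 := coeff F hF' hρ hρ1.le fun w hw => by
    have := h2 w hw
    rwa [← hFv (by simpa using hw.trans hρ1)] at this
  have hs := Complex.hasSum_re (hasSum_taylorSeries_on_ball hF' hz1)
  obtain ⟨N, hN1, hN2⟩ := exists_nat_pow_near_of_lt_one hε hε1 hρ hρ1
  set a : ℕ → ℝ := fun n => ((n ! : ℂ)⁻¹ • (z - 0) ^ n • iteratedDeriv n F 0).re with ha
  have hak : ∀ k, |a (k + 1)| ≤ ‖(((k + 1)! : ℕ) : ℂ)⁻¹ * iteratedDeriv (k + 1) F 0‖ * r ^ (k + 1) := by
    intro k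
    refine (abs_re_le_norm _).trans ?_
    rw [smul_comm, norm_smul, sub_zero, norm_pow, mul_comm, smul_eq_mul]
    gcongr
  have ha0 : |a 0| ≤ ε := by
    have := h2 0 (by simpa using hρ)
    rw [← hFv (by simp)] at this
    simpa [ha] using this
  have b1 : ∀ k, |a k| ≤ 2 * r ^ k := by
    rintro (_ | k)
    · rw [pow_zero]; linarith
    · refine (hak k).trans ?_
      gcongr
      simpa using c1 k
  have b2 : ∀ k, |a k| ≤ 2 * ε * (r / ρ) ^ k := by
    rintro (_ | k)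
    · rw [pow_zero]; linarith
    · refine (hak k).trans ?_
      rw [div_pow, mul_div_assoc', le_div_iff₀ (by positivity), mul_right_comm]
      exact mul_le_mul_of_nonneg_right (c2 k) (by positivity)
  have e1 : r ^ (N + 1) ≤ ε ^ β := by
    rw [hr, ← Real.rpow_natCast, ← Real.rpow_mul hρ.le, mul_comm, Real.rpow_mul hρ.le,
      Real.rpow_natCast]
    exact Real.rpow_le_rpow (by positivity) hN1.le hβ.le
  have e2 : ε * (r / ρ) ^ N ≤ ε ^ β := by
    have t1 : r ^ N = (ρ ^ N) ^ β := by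
      rw [hr, ← Real.rpow_natCast, ← Real.rpow_mul hρ.le, mul_comm, Real.rpow_mul hρ.le,
        Real.rpow_natCast]
    rw [div_pow, mul_div_assoc', div_le_iff₀ (by positivity), t1]
    calc ε * (ρ ^ N) ^ β = ε ^ β * (ε ^ (1 - β) * (ρ ^ N) ^ β) := by
          rw [← mul_assoc, ← Real.rpow_add hε]; simp
      _ ≤ ε ^ β * ((ρ ^ N) ^ (1 - β) * (ρ ^ N) ^ β) := by
          gcongr
      _ = _ := by rw [← Real.rpow_add (by positivity)]; simp
  have t := (hasSum_nat_add_iff' (N + 1)).2 hs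
  have g := (hasSum_geometric_of_lt_one hr0.le hr1).mul_left (2 * r ^ (N + 1))
  have t1 := t.norm_le_of_bounded g fun k => by
    refine (b1 _).trans (le_of_eq ?_)
    ring
  have t2 : |∑ i ∈ Finset.range (N + 1), a i| ≤ 2 * (r / ρ / (r / ρ - 1)) * ε ^ β := by
    refine (Finset.abs_sum_le_sum_abs _ _).trans ((Finset.sum_le_sum fun k _ => b2 k).trans ?_)
    rw [← Finset.mul_sum, geom_sum_eq hq.ne']
    have : 0 < r / ρ - 1 := by linarith
    calc _ ≤ 2 * ε * ((r / ρ) ^ (N + 1) / (r / ρ - 1)) := by gcongr; linarith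
      _ = 2 * (r / ρ / (r / ρ - 1)) * (ε * (r / ρ) ^ N) := by ring
      _ ≤ _ := by gcongr
  have t3 : 2 * r ^ (N + 1) * (1 - r)⁻¹ ≤ 2 * (1 - r)⁻¹ * ε ^ β := by
    have : 0 < 1 - r := by linarith
    rw [mul_right_comm]
    gcongr
  have := abs_sub_abs_le_abs_sub (F z).re (∑ i ∈ Finset.range (N + 1), a i)
  rw [Real.norm_eq_abs] at t1
  rw [← hFv hz1, add_mul]
  linarith

lemma complex_bound {ρ β : ℝ} (hρ : 0 < ρ) (hρ1 : ρ < 1) (hβ : 0 < β) (hβ1 : β < 1) :
    ∃ K : ℝ, ∀ u : ℂ → ℂ, HarmonicOnNhd u (ball 0 1) → (∀ z, ‖z‖ < 1 → ‖u z‖ ≤ 1) →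
      ∀ ε : ℝ, 0 ≤ ε → (∀ z, ‖z‖ < ρ → ‖u z‖ ≤ ε) → ∀ z, ‖z‖ < ρ ^ β → ‖u z‖ ≤ K * ε ^ β := by
  obtain ⟨K, hK⟩ := real_bound hρ hρ1 hβ hβ1
  refine ⟨max (2 * K) 1, fun u hu h1 ε hε h2 z hz => ?_⟩
  have key : ∀ δ, ε < δ → ‖u z‖ ≤ max (2 * K) 1 * δ ^ β := by
    intro δ hδ
    have hδ0 := hε.trans_lt hδ
    rcases le_total δ 1 with h | h
    · have r1 := hK _ (hu.comp_CLM reCLM) (fun w hw => (abs_re_le_norm _).trans (h1 w hw)) δ hδ0 h
        (fun w hw => (abs_re_le_norm _).trans ((h2 w hw).trans hδ.le)) z hz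
      have r2 := hK _ (hu.comp_CLM imCLM) (fun w hw => (abs_im_le_norm _).trans (h1 w hw)) δ hδ0 h
        (fun w hw => (abs_im_le_norm _).trans ((h2 w hw).trans hδ.le)) z hz
      have := norm_le_abs_re_add_abs_im (u z)
      have r3 : 2 * K * δ ^ β ≤ max (2 * K) 1 * δ ^ β := by gcongr; exact le_max_left _ _
      simp only [Function.comp_apply, reCLM_apply, imCLM_apply] at r1 r2
      linarith
    · refine (h1 z (hz.trans (Real.rpow_lt_one hρ.le hρ1 hβ))).trans ?_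
      exact one_le_mul_of_one_le_of_one_le (le_max_right _ _) (Real.one_le_rpow h hβ.le)
  have hc : Continuous fun δ : ℝ => max (2 * K) 1 * δ ^ β :=
    continuous_const.mul (Real.continuous_rpow_const hβ.le)
  exact ge_of_tendsto ((hc.tendsto ε).mono_left (nhdsWithin_le_nhds (s := Ioi ε)))
    (eventually_nhdsWithin_of_forall key)

end Pool.Agent.H.MP_1096cc_an
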